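import Pool.Agent.Y160.FT.Stmts

/-!
# Towers of Kummer extensions with several branch points: statements

As `Pool.Agent.Y160.FT.Stmts`, but the polynomials `g + c ^ q` are separable and not necessarily
irreducible, so that the base field may be finite.
-/

set_option autoImplicit false
set_option linter.all false

open Polynomial IsDedekindDomain WithZero

namespace Pool.Agent.Y160.FT

open Pool.Agent.Y160.SE (IsPw SmoothC)

/-- The conditions on `g` and the list of the pairs `(b, a)`. -/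
structure Cond2 {k : Type} [Field k] (ℓ q : ℕ) (g : k[X]) (l : List (k[X] × k)) : Prop where
  monic : g.Monic
  sep : g.Separable
  cop : ℓ.Coprime g.natDegree
  redei : ∀ (c : k) (A : k[X]), c ≠ 0 → VV g A → (∀ p : k[X], p.Monic → Irreducible p → p ∣ g →
    ∃ (e : ℕ) (w : k[X]), ¬ p ∣ w ∧ p ^ (e + 1) ∣ C c * A - g ^ e * w ^ ℓ) → Triv ℓ g A
  ne : ∀ l₁ b a l₂, l = l₁ ++ (b, a) :: l₂ → a ≠ 0
  deg : ∀ l₁ b a l₂, l = l₁ ++ (b, a) :: l₂ → q * ℓ ^ l₁.length * b.natDegree < g.natDegree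
  cpr : ∀ l₁ b a l₂, l = l₁ ++ (b, a) :: l₂ → IsCoprime g (EE ℓ (RingHom.id k[X]) l₁ b)
  gsep : ∀ l₁ b a l₂, l = l₁ ++ (b, a) :: l₂ → (g + (EE ℓ (RingHom.id k[X]) l₁ b) ^ q).Separable
  step : ∀ l₁ b a l₂, l = l₁ ++ (b, a) :: l₂ → ∀ (c : k) (A w : k[X]), c ≠ 0 → VV g A →
    (g + (EE ℓ (RingHom.id k[X]) l₁ b) ^ q) ∣ C c * A - w ^ ℓ → Triv ℓ g A
  row : ∀ l₁ b a l₂, l = l₁ ++ (b, a) :: l₂ → ∀ (c : k) (B : k[X]), c ≠ 0 →
    VV (g + (EE ℓ (RingHom.id k[X]) l₁ b) ^ q) B →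
    (∀ p : k[X], p.Monic → Irreducible p → p ∣ g → ∃ w : k[X], p ∣ C c * B - w ^ ℓ) →
    Triv ℓ (g + (EE ℓ (RingHom.id k[X]) l₁ b) ^ q) B

/-- The norm from `R` to `k[x]`. -/
noncomputable def Nx {k R : Type} [Field k] [CommRing R] [Algebra k R] (x : R) : R →* k[X] :=
  @Algebra.norm k[X] R _ _ ((aeval x : k[X] →ₐ[k] R) : k[X] →+* R).toAlgebra

/-- The valuations of norms. -/
def StNrmV : Prop := ∀ (k R : Type) [Field k] [CommRing R] [IsDedekindDomain R] [Algebra k R]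
  (x u : R) (F : k[X][X]) (c₀ : k) (ℓ : ℕ), c₀ ≠ 0 → F.leadingCoeff = C c₀ → 0 < F.natDegree →
  Pres x u F → ∀ a : R, a ≠ 0 → Nx (k := k) x a ≠ 0 ∧ ∀ Q : k[X], Irreducible Q →
    ((∀ v : HeightOneSpectrum R, v.intValuation (aeval x Q) ≠ 1 → IsPw ℓ (v.intValuation a)) →
      ∃ (n : ℕ) (y : k[X]), ¬ Q ∣ y ∧ Nx (k := k) x a = Q ^ (ℓ * n) * y) ∧
    ∀ b : k[X], Q ∣ F.eval b →
      (∀ v : HeightOneSpectrum R, v.intValuation (aeval x Q) ≠ 1 →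
        v.intValuation (u - aeval x b) = 1 → IsPw ℓ (v.intValuation a)) →
      ∀ v : HeightOneSpectrum R, v.intValuation (aeval x Q) ≠ 1 →
        v.intValuation (u - aeval x b) ≠ 1 →
        ∃ (e n n' : ℕ) (y : k[X]), v.intValuation a = exp (-(e : ℤ)) ∧ ¬ Q ∣ y ∧
          Nx (k := k) x a = Q ^ n * y ∧ e + ℓ * n' = n

/-- Norms modulo a prime at which the polynomial is a `q`-th power. -/
def StNrmR : Prop := ∀ (k R : Type) [Field k] [CommRing R] [IsDomain R] [Algebra k R]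
  (x u : R) (F h : k[X][X]) (c₀ : k) (q : ℕ), 0 < q → c₀ ≠ 0 → h.leadingCoeff = C c₀ →
  0 < h.natDegree → F.natDegree = q * h.natDegree → F.leadingCoeff = C (c₀ ^ q) → Pres x u F →
  ∀ Q : k[X], Irreducible Q → C Q ∣ F - h ^ q → ∀ a : R, ∃ w : k[X], Q ∣ Nx (k := k) x a - w ^ q

/-- The condition from the primes dividing `g`, for an element whose valuations away from
`u = b(x)` are `ℓ`-th powers. -/
def StRow : Prop := ∀ (ℓ q s : ℕ) (k : Type) [Field k] (g : k[X]) (l : List (k[X] × k)) (b : k[X]),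
  ℓ.Prime → q = ℓ ^ (s + 1) → g.Monic → 0 < g.natDegree → (∀ x ∈ l, x.2 ≠ 0) →
  (g + (EE ℓ (RingHom.id k[X]) l b) ^ q).Separable →
  IsCoprime g (EE ℓ (RingHom.id k[X]) l b) →
  ∀ (R L : Type) [CommRing R] [IsDedekindDomain R] [Algebra k R] [Field L] [Algebra R L]
    [IsFractionRing R L] (x u : R), Pres x u (FF ℓ q g l) →
    ∀ z : L, z ≠ 0 →
      (∀ v : HeightOneSpectrum R, v.intValuation (u - aeval x b) = 1 → IsPw ℓ (v.valuation L z)) →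
      ∃ (c : k) (B : k[X]), c ≠ 0 ∧ VV (g + (EE ℓ (RingHom.id k[X]) l b) ^ q) B ∧
        (∀ p : k[X], p.Monic → Irreducible p → p ∣ g → ∃ w : k[X], p ∣ C c * B - w ^ ℓ) ∧
        ∀ (c' : k) (n : ℕ) (W : k[X]), c' ≠ 0 →
          B = C c' * (g + (EE ℓ (RingHom.id k[X]) l b) ^ q) ^ n * W ^ ℓ →
          ∀ v : HeightOneSpectrum R,
            IsPw ℓ (v.valuation L (z / algebraMap R L (u - aeval x b) ^ n))

/-- The tower. -/
def StTower2 : Prop := ∀ (ℓ q s : ℕ) (k : Type) [Field k] (ζ : k) (g : k[X]) (l : List (k[X] × k)),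
  ℓ.Prime → q = ℓ ^ (s + 1) → IsPrimitiveRoot ζ q → Cond2 ℓ q g l →
  ∃ (R : Type) (_ : CommRing R) (_ : IsDedekindDomain R) (_ : Algebra k R) (x u : R),
    Pres x u (FF ℓ q g l) ∧
    ∀ (L : Type) [Field L] [Algebra R L] [IsFractionRing R L] [Algebra k L],
      (∀ c : k, algebraMap k L c = algebraMap R L (algebraMap k R c)) →
      ∀ z : L, z ≠ 0 → (∀ P : HeightOneSpectrum R, IsPw ℓ (P.valuation L z)) →
        ∃ (c : k) (A : k[X]) (w : L), c ≠ 0 ∧ VV g A ∧ w ≠ 0 ∧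
          z = algebraMap k L c * algebraMap R L (aeval x A) * w ^ ℓ

/-- The elementary properties of `f = g(x) + h(x, t) ^ q`. -/
def StFam2 : Prop := ∀ (ℓ q s : ℕ) (k : Type) [Field k] (g : k[X]) (l : List (k[X] × k)),
  ℓ.Prime → q = ℓ ^ (s + 1) → (ℓ : k) ≠ 0 → Cond2 ℓ q g l →
  (ff ℓ q g l).Monic ∧ (ff ℓ q g l).natDegree = g.natDegree ∧ SmoothC (ff ℓ q g l) ∧
  (∀ (F : Type) [Field F] [Algebra k[X] F] [IsFractionRing k[X] F],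
    Irreducible ((ff ℓ q g l).map (algebraMap k[X] F)) ∧
    ((ff ℓ q g l).map (algebraMap k[X] F)).Separable) ∧
  ∀ (k' F : Type) [Field k'] [Algebra k k'] [Field F] [Algebra k'[X] F] [IsFractionRing k'[X] F],
    Irreducible (((ff ℓ q g l).map (mapRingHom (algebraMap k k'))).map (algebraMap k'[X] F))

/-- The divisors of the powers of `g` are independent modulo `q`-th powers. -/
def StInd2 : Prop := ∀ (ℓ q s : ℕ) (k : Type) [Field k] (ζ : k) (g : k[X]) (l : List (k[X] × k)),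
  ℓ.Prime → q = ℓ ^ (s + 1) → IsPrimitiveRoot ζ q → Cond2 ℓ q g l →
  ∀ (R L : Type) [CommRing R] [IsDomain R] [Algebra k R] [Field L] [Algebra R L]
    [IsFractionRing R L] (x u : R), Pres x u (FF ℓ q g l) →
    ∀ (c : k) (A : k[X]) (w : L), c ≠ 0 → VV g A →
      algebraMap R L (algebraMap k R c * aeval x A) = w ^ q →
      ∃ (c' : k) (j : ℕ) (B : k[X]), c' ≠ 0 ∧ A = C c' * g ^ j * B ^ q

/-- Counting: elements of a large finite field with prescribed residue classes modulo `ℓ`-th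
powers. -/
def StCnt : Prop := ∀ (ℓ m : ℕ), ℓ.Prime → ∃ M : ℕ, ∀ (k : Type) [Field k] [Finite k],
  ℓ ∣ Nat.card k - 1 → M ≤ Nat.card k → ∀ (a c : Fin m → k), Function.Injective a →
    (∀ i, c i ≠ 0) → ∃ κ : k, ∀ i, ∃ y : k, y ≠ 0 ∧ κ - a i = c i * y ^ ℓ

/-- The conditions for products of binomials. -/
def StSplit : Prop := ∀ (ℓ q s m N : ℕ) (k : Type) [Field k] (ρ γ : Fin m → k) (β τ a : k)
  (as : List k), ℓ.Prime → q = ℓ ^ (s + 1) → ℓ.Coprime m → ℓ.Coprime N → 0 < m → (N : k) ≠ 0 →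
  β ≠ 0 → a ≠ 0 → (∀ a' ∈ as, a' ≠ 0) →
  ∏ i, (X - C (γ i)) = ∏ i, (X - C (ρ i)) + C (β ^ q) →
  Function.Injective ρ → Function.Injective γ →
  (∀ i, Irreducible (X ^ N + C (τ - ρ i) : k[X])) →
  (∀ i, Irreducible (X ^ N + C (τ - γ i) : k[X])) →
  (∀ (c : k) (e : Fin m → ℕ), c ≠ 0 → (∀ i, ∃ y : k, y ≠ 0 ∧
    c * ∏ j ∈ Finset.univ.erase i, (ρ i - ρ j) ^ e j =
      (∏ j ∈ Finset.univ.erase i, (ρ i - ρ j)) ^ e i * y ^ ℓ) → ∀ i j, e i ≡ e j [MOD ℓ]) →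
  (∀ (c : k) (e : Fin m → ℕ), c ≠ 0 → (∀ j, ∃ y : k, c * ∏ i, (γ j - ρ i) ^ e i = y ^ ℓ) →
    ∀ i j, e i ≡ e j [MOD ℓ]) →
  (∀ (c : k) (e : Fin m → ℕ), c ≠ 0 → (∀ i, ∃ y : k, c * ∏ j, (ρ i - γ j) ^ e j = y ^ ℓ) →
    ∀ i j, e i ≡ e j [MOD ℓ]) →
  Cond2 ℓ q (∏ i, (X ^ N + C (τ - ρ i))) ((C β, a) :: as.map fun a' => (0, a'))

/-- Existence over finite fields of every characteristic. -/
def StExF : Prop := ∀ (ℓ q s m p₀ : ℕ), ℓ.Prime → q = ℓ ^ (s + 1) → p₀.Prime → p₀ ≠ ℓ →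
  ℓ.Coprime m → p₀.Coprime m → 0 < m →
  ∃ (k : Type) (_ : Field k) (ζ : k) (ρ γ : Fin m → k) (β τ : k) (N : ℕ), Finite k ∧ CharP k p₀ ∧
    IsPrimitiveRoot ζ q ∧ 1 < N ∧ ℓ.Coprime N ∧ p₀.Coprime N ∧ β ≠ 0 ∧
    ∏ i, (X - C (γ i)) = ∏ i, (X - C (ρ i)) + C (β ^ q) ∧
    Function.Injective ρ ∧ Function.Injective γ ∧
    (∀ (e : ℕ) (i), Irreducible (X ^ (N ^ e) + C (τ - ρ i) : k[X])) ∧
    (∀ (e : ℕ) (i), Irreducible (X ^ (N ^ e) + C (τ - γ i) : k[X])) ∧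
    (∀ (c : k) (e : Fin m → ℕ), c ≠ 0 → (∀ i, ∃ y : k, y ≠ 0 ∧
      c * ∏ j ∈ Finset.univ.erase i, (ρ i - ρ j) ^ e j =
        (∏ j ∈ Finset.univ.erase i, (ρ i - ρ j)) ^ e i * y ^ ℓ) → ∀ i j, e i ≡ e j [MOD ℓ]) ∧
    (∀ (c : k) (e : Fin m → ℕ), c ≠ 0 → (∀ j, ∃ y : k, c * ∏ i, (γ j - ρ i) ^ e i = y ^ ℓ) →
      ∀ i j, e i ≡ e j [MOD ℓ]) ∧
    (∀ (c : k) (e : Fin m → ℕ), c ≠ 0 → (∀ i, ∃ y : k, c * ∏ j, (ρ i - γ j) ^ e j = y ^ ℓ) →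
      ∀ i j, e i ≡ e j [MOD ℓ])

end Pool.Agent.Y160.FT
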