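import Pool.Agent.Y721.FT.Fam
import Pool.Agent.Y160.FT2.Stmts

/-! Elementary properties of the family `f = g(x) + h(x, t) ^ q` (port to `Cond2` of
`Pool.Agent.Y721.FT.Fam`). -/

set_option autoImplicit false

open Polynomial

namespace Pool.Agent.Y160.FT2F

open Pool.Agent.Y160.FT Pool.Agent.Y721.FT
open Pool.Agent.Y160.SE (SmoothC)

section smooth

variable {k : Type} [Field k]

/-- modulo the square of a factor, `f` is a separable polynomial in `x` -/
theorem ff_mod (ℓ q s : ℕ) (hℓ : ℓ.Prime) (hq : q = ℓ ^ (s + 1)) (g : k[X])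
    (l : List (k[X] × k)) (hC : Cond2 ℓ q g l) (l₁ l₂ : List (k[X] × k)) (hl : l = l₁ ++ l₂) :
    ∃ (G : k[X]) (W : k[X][X]), G.Separable ∧
      ff ℓ q g l = mapRingHom C G + (EE ℓ (mapRingHom C) l₂ (C X)) ^ 2 * W := by
  have hℓ2 := hℓ.two_le
  have hq2 : 2 ≤ q := by
    rw [hq, pow_succ]
    have : 1 ≤ ℓ ^ s := Nat.one_le_pow _ _ (by omega)
    nlinarith
  rcases List.eq_nil_or_concat l₁ with h0 | ⟨l₁', p, h0⟩
  · subst h0
    rw [List.nil_append] at hl
    refine ⟨g, (EE ℓ (mapRingHom C) l₂ (C X)) ^ (q - 2), hC.sep, ?_⟩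
    rw [← pow_add, Nat.add_sub_cancel' hq2, hl]
    rfl
  · obtain ⟨b, a⟩ := p
    rw [List.concat_eq_append] at h0
    have hl' : l = l₁' ++ (b, a) :: l₂ := by rw [hl, h0]; simp
    set H : k[X][X] := EE ℓ (mapRingHom C) l₂ (C X) with hH
    have e1 : EE ℓ (mapRingHom C) l (C X) =
        EE ℓ (mapRingHom C) l₁' (mapRingHom C b + mapRingHom C (C a) * H ^ ℓ) := by
      rw [hl', EE_append]
      rfl
    have e2 : EE ℓ (mapRingHom C) l₁' (mapRingHom C b) =
        mapRingHom (C : k →+* k[X]) (EE ℓ (RingHom.id k[X]) l₁' b) := by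
      rw [EE_map, RingHom.comp_id]
    have h1 : H ^ 2 ∣ EE ℓ (mapRingHom C) l (C X) - EE ℓ (mapRingHom C) l₁' (mapRingHom C b) := by
      rw [e1]
      refine Dvd.dvd.trans ?_ (EE_dvd ℓ _ l₁' _ _)
      rw [add_sub_cancel_left]
      exact Dvd.dvd.mul_left (pow_dvd_pow _ hℓ2) _
    have h2 : H ^ 2 ∣ EE ℓ (mapRingHom C) l (C X) ^ q -
        EE ℓ (mapRingHom C) l₁' (mapRingHom C b) ^ q := h1.trans (sub_dvd_pow_sub_pow _ _ _)
    obtain ⟨W, hW⟩ := h2
    refine ⟨g + (EE ℓ (RingHom.id k[X]) l₁' b) ^ q, W, hC.gsep l₁' b a l₂ hl', ?_⟩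
    rw [← hW, map_add, map_pow, ← e2]
    unfold ff
    rw [coe_mapRingHom]
    ring

theorem smooth_ff (ℓ q s : ℕ) (hℓ : ℓ.Prime) (hq : q = ℓ ^ (s + 1)) (hℓk : (ℓ : k) ≠ 0) (g : k[X])
    (l : List (k[X] × k)) (hC : Cond2 ℓ q g l) (hne : ∀ p ∈ l, p.2 ≠ 0) :
    SmoothC (ff ℓ q g l) := by
  unfold SmoothC
  by_contra hcon
  obtain ⟨P, hPm, hP⟩ := Ideal.exists_le_maximal _ hcon
  have hPp := hPm.isPrime
  have hf : ff ℓ q g l ∈ P := hP (Ideal.subset_span (by simp))
  have hfx : derivative (ff ℓ q g l) ∈ P := hP (Ideal.subset_span (by simp))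
  have hft : Dt (ff ℓ q g l) ∈ P := hP (Ideal.subset_span (by
    right; right; exact rfl))
  have hqk : (q : k) ≠ 0 := by
    rw [hq]
    push_cast
    exact pow_ne_zero _ hℓk
  have hq1 : 0 < q := by
    rw [hq]
    exact pow_pos hℓ.pos _
  -- some factor is in `P`
  obtain ⟨l₁, l₂, hl, hmem⟩ : ∃ l₁ l₂, l = l₁ ++ l₂ ∧
      (EE ℓ (mapRingHom C) l₂ (C X) : k[X][X]) ∈ P := by
    obtain ⟨m, hm⟩ : ∃ m, q = m + 1 := ⟨q - 1, by omega⟩
    have h1 : Dt (ff ℓ q g l) = ((q : ℕ) : k[X][X]) * ((EE ℓ (mapRingHom C) l (C X)) ^ m *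
        Dt (EE ℓ (mapRingHom C) l (C X))) := by
      unfold ff
      rw [Dt_add, ← coe_mapRingHom, Dt_mapC, zero_add, hm, Dt_pow]
      ring
    rw [h1] at hft
    rcases hPp.mem_or_mem ((Ideal.unit_mul_mem_iff_mem P (isUnit_nat hqk)).1 hft) with h2 | h2
    · exact ⟨[], l, rfl, hPp.mem_of_pow_mem m h2⟩
    · exact mem_of_Dt ℓ hℓ.two_le hℓk P hPp l hne h2
  obtain ⟨G, W, hG, hfG⟩ := ff_mod ℓ q s hℓ hq g l hC l₁ l₂ hl
  set H : k[X][X] := EE ℓ (mapRingHom C) l₂ (C X) with hH
  have h1 : mapRingHom C G ∈ P := by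
    have : mapRingHom C G = ff ℓ q g l - H * (H * W) := by rw [hfG]; ring
    rw [this]
    exact P.sub_mem hf (P.mul_mem_right _ hmem)
  have h2 : mapRingHom C (derivative G) ∈ P := by
    have e1 : derivative (mapRingHom (C : k →+* k[X]) G) = mapRingHom C (derivative G) := by
      rw [coe_mapRingHom, derivative_map]
    have e2 : mapRingHom C (derivative G) = derivative (ff ℓ q g l) -
        H * (2 * derivative H * W + H * derivative W) := by
      rw [hfG, derivative_add, e1, derivative_mul, derivative_pow]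
      simp only [Nat.cast_ofNat, Nat.add_one_sub_one, pow_one, map_ofNat]
      ring
    rw [e2]
    exact P.sub_mem hfx (P.mul_mem_right _ hmem)
  obtain ⟨A, B, hAB⟩ := hG
  apply hPm.ne_top
  rw [Ideal.eq_top_iff_one]
  have h3 : (1 : k[X][X]) = mapRingHom C A * mapRingHom C G +
      mapRingHom C B * mapRingHom C (derivative G) := by
    rw [← map_mul, ← map_mul, ← map_add, hAB, map_one]
  rw [h3]
  exact P.add_mem (P.mul_mem_left _ h1) (P.mul_mem_left _ h2)

end smooth

theorem stFam2 (hIrr : StIrr) : StFam2 := by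
  intro ℓ q s k _ g l hℓ hq hℓk hC
  have hq1 : 0 < q := by
    rw [hq]
    exact pow_pos hℓ.pos _
  have hn : 0 < g.natDegree := by
    rcases Nat.eq_zero_or_pos g.natDegree with h | h
    · exfalso
      have := hC.cop
      rw [h, Nat.coprime_zero_right] at this
      exact hℓ.one_lt.ne' this
    · exact h
  have hne : ∀ p ∈ l, p.2 ≠ 0 := by
    intro p hp
    obtain ⟨l₁, l₂, h⟩ := List.append_of_mem hp
    exact hC.ne l₁ p.1 p.2 l₂ h
  have hdx := EE_degx ℓ q g.natDegree hn l hC.deg
  set h : k[X][X] := EE ℓ (mapRingHom C) l (C X) with hh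
  have hdeg : (h ^ q).degree < (g.map (C : k →+* k[X])).degree := by
    have h1 : (g.map (C : k →+* k[X])).degree = g.natDegree := by
      rw [degree_map_eq_of_injective C_injective, degree_eq_natDegree hC.monic.ne_zero]
    rw [h1]
    refine lt_of_le_of_lt degree_le_natDegree ?_
    have h2 : (h ^ q).natDegree ≤ q * h.natDegree := natDegree_pow_le
    exact_mod_cast lt_of_le_of_lt h2 hdx
  have hfm : (ff ℓ q g l).Monic := by
    unfold ff
    exact Monic.add_of_left (hC.monic.map _) hdeg
  have hfn : (ff ℓ q g l).natDegree = g.natDegree := by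
    unfold ff
    rw [natDegree_add_eq_left_of_degree_lt hdeg, natDegree_map_eq_of_injective C_injective]
  set M := q * ℓ ^ l.length with hM
  have hM0 : 0 < M := Nat.mul_pos hq1 (pow_pos hℓ.pos _)
  have hMc : g.natDegree.Coprime M := by
    rw [hM, hq, ← pow_add]
    exact (Nat.Coprime.pow_left _ hC.cop).symm
  -- the weights
  have hwt : Wt g.natDegree M (ff ℓ q g l) (g.natDegree * M) := by
    unfold ff
    apply Wt.add
    · refine (Wt.mapC g).mono ?_
      rw [mul_comm]
    · refine ((wt_EE ℓ q g.natDegree l hC.deg l [] rfl).pow q).mono ?_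
      apply le_of_eq
      rw [hM]; ring
  have hc0 : ((ff ℓ q g l).coeff 0).natDegree = M := by
    have h1 : (ff ℓ q g l).coeff 0 = C (g.coeff 0) +
        (EE ℓ ((C : k →+* k[X]).comp (evalRingHom 0)) l X) ^ q := by
      unfold ff
      rw [coeff_add, coeff_map]
      congr 1
      have e1 : ∀ p : k[X][X], p.coeff 0 = evalRingHom 0 p := fun p => by
        rw [coe_evalRingHom, coeff_zero_eq_eval_zero]
      rw [e1, map_pow, EE_map]
      congr 2
      · apply Polynomial.ringHom_ext
        · intro a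
          simp
        · simp
      · simp
    rw [h1, natDegree_C_add, natDegree_pow, natDegree_EE ℓ hℓ.pos _ l hne]
  have hcoef : ∀ j ≤ g.natDegree, g.natDegree * ((ff ℓ q g l).coeff j).natDegree ≤
      M * (g.natDegree - j) := by
    intro j hj
    by_cases hz : (ff ℓ q g l).coeff j = 0
    · rw [hz, natDegree_zero, mul_zero]; exact Nat.zero_le _
    · have h1 := hwt j hz
      rw [Nat.mul_sub]
      have h2 : M * g.natDegree = g.natDegree * M := mul_comm _ _
      omega
  have hirr : ∀ (F : Type) [Field F] [Algebra k[X] F] [IsFractionRing k[X] F],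
      Irreducible ((ff ℓ q g l).map (algebraMap k[X] F)) := by
    intro F _ _ _
    exact hIrr k F (ff ℓ q g l) M hfm (by rw [hfn]; exact hMc) hM0 hc0 (by rw [hfn]; exact hcoef)
  refine ⟨hfm, hfn, smooth_ff ℓ q s hℓ hq hℓk g l hC hne, ?_, ?_⟩
  · intro F _ _ _
    refine ⟨hirr F, ?_⟩
    rw [separable_iff_derivative_ne_zero (hirr F), derivative_map]
    have hinj : Function.Injective (algebraMap k[X] F) := IsFractionRing.injective _ _
    rw [Ne, Polynomial.map_eq_zero_iff hinj]
    intro hd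
    -- the derivative of `g` is not zero
    have hg' : derivative g ≠ 0 := by
      intro h0
      have hs := hC.sep
      unfold Separable at hs
      rw [h0, isCoprime_zero_right] at hs
      have := natDegree_eq_zero_of_isUnit hs
      omega
    obtain ⟨m, hm⟩ : ∃ m, q = m + 1 := ⟨q - 1, by omega⟩
    have hm1 : 1 ≤ m := by
      have h2 : 2 ≤ q := by
        rw [hq, pow_succ]
        have h3 := hℓ.two_le
        have : 1 ≤ ℓ ^ s := Nat.one_le_pow _ _ (by omega)
        nlinarith
      omega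
    have h1 : derivative (ff ℓ q g l) = mapRingHom C (derivative g) +
        h * (C (q : k[X]) * h ^ (m - 1) * derivative h) := by
      unfold ff
      rw [derivative_add, derivative_map, ← hh, derivative_pow, hm, Nat.add_sub_cancel,
        coe_mapRingHom]
      obtain ⟨m', rfl⟩ : ∃ m', m = m' + 1 := ⟨m - 1, by omega⟩
      rw [Nat.add_sub_cancel]
      ring
    rw [h1] at hd
    have h2 : h ∣ mapRingHom C (derivative g) := by
      refine ⟨-(C (q : k[X]) * h ^ (m - 1) * derivative h), ?_⟩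
      linear_combination hd
    -- specialise
    let K := FractionRing k[X]
    let κ : k →+* K := (algebraMap k[X] K).comp C
    let Θ : k[X][X] →+* K[X] := eval₂RingHom (mapRingHom κ) (C (algebraMap k[X] K X))
    have hΘC : Θ.comp (mapRingHom C) = C.comp (algebraMap k[X] K) := by
      apply Polynomial.ringHom_ext
      · intro a
        simp [Θ, κ]
      · simp [Θ]
    have h3 := map_dvd Θ h2
    rw [hh, EE_map, hΘC] at h3
    have h4 : Θ (C X) = X := by simp [Θ]
    rw [h4] at h3
    have h5 : Θ (mapRingHom C (derivative g)) = C (algebraMap k[X] K (derivative g)) :=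
      DFunLike.congr_fun hΘC (derivative g)
    rw [h5] at h3
    have hne0 : algebraMap k[X] K (derivative g) ≠ 0 := by
      intro h0
      exact hg' ((map_eq_zero_iff _ (IsFractionRing.injective k[X] K)).1 h0)
    have h6 := natDegree_le_of_dvd h3 (by rwa [Ne, C_eq_zero])
    rw [natDegree_EE ℓ hℓ.pos _ l hne, natDegree_C] at h6
    have := pow_pos hℓ.pos l.length
    omega
  · intro k' F _ _ _ _ _
    have hinj : Function.Injective (mapRingHom (algebraMap k k')) :=
      map_injective _ (algebraMap k k').injective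
    have hn' : ((ff ℓ q g l).map (mapRingHom (algebraMap k k'))).natDegree = g.natDegree := by
      rw [natDegree_map_eq_of_injective hinj, hfn]
    have hco : ∀ j, (((ff ℓ q g l).map (mapRingHom (algebraMap k k'))).coeff j).natDegree =
        ((ff ℓ q g l).coeff j).natDegree := by
      intro j
      rw [coeff_map, coe_mapRingHom, natDegree_map]
    exact hIrr k' F _ M (hfm.map _) (by rw [hn']; exact hMc) hM0 (by rw [hco, hc0])
      (by rw [hn']; intro j hj; rw [hco]; exact hcoef j hj)

end Pool.Agent.Y160.FT2F
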