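import Pool.Agent.Y228.FT.InB
import Pool.Agent.Y125.FT2.Tower

set_option autoImplicit false
set_option linter.all false

/-! Independence modulo `q`-th powers: port to `Cond2`. -/

namespace Pool.Agent.Y160.FT2I

open Polynomial IsDedekindDomain WithZero
open Pool.Agent.Y160.SE (IsPw)
open Pool.Agent.Y160.FT
open Pool.Agent.Y228.FT
open Pool.Agent.Y125.FT2

section

variable {k : Type} [Field k] {ℓ q s : ℕ} {ζ : k} {g : k[X]}

theorem ind_step2 (h1 : StKum) (h3 : StRes) (h4 : StPres) (hℓ : ℓ.Prime) (hq : q = ℓ ^ (s + 1))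
    (hζ : IsPrimitiveRoot ζ q) {l : List (k[X] × k)} {b : k[X]} {a : k}
    (hc : Cond2 ℓ q g (l ++ [(b, a)])) {R : Type} [CommRing R] [IsDedekindDomain R] [Algebra k R]
    {x u : R} (hP : Pres x u (FF ℓ q g l)) (hR : IndR ℓ g x) :
    ∃ (R' : Type) (_ : CommRing R') (_ : IsDedekindDomain R') (_ : Algebra k R') (x' u' : R'),
      Pres x' u' (FF ℓ q g (l ++ [(b, a)])) ∧ IndR ℓ g x' := by
  have hq2 : 2 ≤ q := by rw [hq]; exact Nat.one_lt_pow (by omega) hℓ.one_lt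
  obtain ⟨π, hπ, huπ, hd, hs⟩ := step_data2 h3 hℓ hq2 hc hP
  have ha : a ≠ 0 := hc.ne l b a [] rfl
  have hsq : Squarefree (g + (EE ℓ (RingHom.id k[X]) l b) ^ q) :=
    (hc.gsep l b a [] rfl).squarefree
  have hval : ∀ v : HeightOneSpectrum R, v.intValuation π = 1 ∨ v.intValuation π = exp (-1 : ℤ) :=
    fun v => val_cases' hsq hd hs hπ v
  have hnd : ¬ ℓ ∣ (g + (EE ℓ (RingHom.id k[X]) l b) ^ q).natDegree := fun hdv => by
    rw [degG2 hc] at hdv
    have := Nat.eq_one_of_dvd_coprimes hc.cop dvd_rfl hdv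
    exact hℓ.one_lt.ne' this
  obtain ⟨p0, hp0, hp0G, hp0l⟩ := exists_good (ℓ := ℓ) _ _ hsq.ne_zero le_rfl hnd
  obtain ⟨v0, hv0, hx0⟩ := exists_place hπ hd hs hp0 hp0G
  have hζ' : IsPrimitiveRoot (ζ ^ (ℓ ^ s)) ℓ := hζ.pow (by omega) (by rw [hq, pow_succ])
  obtain ⟨hD, hK⟩ := h1 ℓ k R (ζ ^ (ℓ ^ s)) π hℓ.one_lt hζ' hval ⟨v0, (hval v0).resolve_left hv0.ne⟩
  letI := hD
  have hPr := h4 k R x u π (FF ℓ q g l) ℓ a b hℓ.pos ha huπ hP
  rw [← FF_append] at hPr
  obtain ⟨H, hgx⟩ : ∃ H : R, aeval x g = -H ^ q := by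
    have h5 := (hP.ker (FF ℓ q g l)).2 dvd_rfl
    unfold FF at h5
    rw [eval₂_add, eval₂_C, eval₂_pow] at h5
    exact ⟨_, eq_neg_of_add_eq_zero_left h5⟩
  refine ⟨AdjoinRoot (X ^ ℓ - C π : R[X]), inferInstance, hD, inferInstance, _, _, hPr, ?_⟩
  intro c A w hc0 hA hw
  have hkR : Function.Injective (algebraMap k R) := (algebraMap k R).injective
  have hζR : IsPrimitiveRoot (algebraMap k R (ζ ^ (ℓ ^ s))) ℓ := hζ'.map_of_injective hkR
  have hw' : w ^ ℓ = AdjoinRoot.of (X ^ ℓ - C π : R[X]) (algebraMap k R c * aeval x A) := by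
    rw [← hw, map_mul]
    congr 1
    rw [aeval_algebraMap_apply]
    rfl
  obtain ⟨y, i, hi, h⟩ := struct (r := 1) hℓ.pos one_pos (by rw [one_mul]) π _ rfl hζR w _ hw'
  rcases Nat.eq_zero_or_pos i with h0 | h0
  · rw [h0, pow_zero, mul_one] at h
    exact hR c A y hc0 hA h
  exfalso
  -- `G` divides `A`
  have hcu : IsUnit (algebraMap k R c) := (IsUnit.mk0 _ hc0).map (algebraMap k R)
  have h6 : π ∣ aeval x A := by
    have : π ∣ algebraMap k R c * aeval x A := by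
      rw [h]; exact (dvd_pow_self π h0.ne').mul_left _
    exact (hcu.dvd_mul_left).1 this
  have hGA := (hd A).1 h6
  obtain ⟨c', j, W, hc', hAW⟩ := hc.step l b a [] rfl c A 0 hc0 hA (by
    rw [zero_pow hℓ.ne_zero, sub_zero]; exact hGA.mul_left _)
  have e0 : aeval x A = algebraMap k R c' * (-H ^ q) ^ j * (aeval x W) ^ ℓ := by
    rw [hAW, map_mul, map_mul, map_pow, map_pow, aeval_C, hgx]
  have e1 : algebraMap k R c * aeval x A =
      algebraMap k R (c * c' * (-1) ^ j) * (H ^ (ℓ ^ s * j) * aeval x W) ^ ℓ := by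
    have e4 : (H ^ q) ^ j = (H ^ (ℓ ^ s * j)) ^ ℓ := by
      rw [← pow_mul, ← pow_mul]
      congr 1
      rw [hq, pow_succ]
      ring
    rw [e0, neg_pow, e4, mul_pow]
    simp only [map_mul, map_pow, map_neg, map_one]
    ring
  -- it is not zero
  have hA0 : aeval x A ≠ 0 := by
    obtain ⟨N, hN⟩ := hA
    intro h7
    have h8 : eval₂ ((aeval x : k[X] →ₐ[k] R) : k[X] →+* R) u (C A) = 0 := by
      rw [eval₂_C]; exact h7
    have h9 := (hP.ker _).1 h8
    have hFF := FF_natDegree (q := q) hℓ.pos hq2 g l (fun l₁ b' a' l₂ h =>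
      hc.ne l₁ b' a' (l₂ ++ [(b, a)]) (by rw [h, List.append_assoc]; rfl))
    by_cases hA00 : A = 0
    · rw [hA00, zero_dvd_iff] at hN
      exact pow_ne_zero N hc.sep.ne_zero hN
    · have := natDegree_le_of_dvd h9 (C_ne_zero.2 hA00)
      rw [natDegree_C] at this
      omega
  have hne : algebraMap k R c * aeval x A ≠ 0 := mul_ne_zero hcu.ne_zero hA0
  have hE0 : H ^ (ℓ ^ s * j) * aeval x W ≠ 0 := fun h7 => by
    rw [h7, zero_pow hℓ.ne_zero, mul_zero] at e1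
    exact hne e1
  have hy0 : y ≠ 0 := fun h7 => by
    rw [h7, zero_pow hℓ.ne_zero, zero_mul] at h
    exact hne h
  have hcc : c * c' * (-1) ^ j ≠ 0 :=
    mul_ne_zero (mul_ne_zero hc0 hc') (pow_ne_zero _ (by norm_num))
  have hv : v0.intValuation (y ^ ℓ * π ^ i) =
      v0.intValuation (algebraMap k R (c * c' * (-1) ^ j) *
        (H ^ (ℓ ^ s * j) * aeval x W) ^ ℓ) := by rw [← h, e1]
  rw [map_mul, map_mul, map_pow, map_pow, map_pow, (hval v0).resolve_left hv0.ne,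
    val_unit v0 ((IsUnit.mk0 _ hcc).map (algebraMap k R)), one_mul] at hv
  have hi2 : ℓ ∣ i := by
    apply isPw_exp hℓ.ne_zero
    refine ⟨v0.intValuation (H ^ (ℓ ^ s * j) * aeval x W) / v0.intValuation y, ?_⟩
    have hvy := val_ne_zero v0 hy0
    rw [div_pow, ← hv]
    rw [mul_comm, mul_div_assoc, div_self (pow_ne_zero _ hvy), mul_one, ← exp_nsmul]
    congr 1
    rw [nsmul_eq_mul]
    ring
  exact absurd (Nat.le_of_dvd h0 hi2) (by omega)

theorem ind_tower2 (h1 : StKum) (h3 : StRes) (h4 : StPres) (h5 : StPres0) (hℓ : ℓ.Prime)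
    (hq : q = ℓ ^ (s + 1)) (hζ : IsPrimitiveRoot ζ q) (l : List (k[X] × k)) (hc : Cond2 ℓ q g l) :
    ∃ (R : Type) (_ : CommRing R) (_ : IsDedekindDomain R) (_ : Algebra k R) (x u : R),
      Pres x u (FF ℓ q g l) ∧ IndR ℓ g x := by
  induction l using List.reverseRecOn with
  | nil => exact ind_base h1 h5 hℓ hq hζ hc.sep hc.cop
  | append_singleton l p ih =>
    obtain ⟨b, a⟩ := p
    obtain ⟨R, i1, i2, i3, x, u, hP, hR⟩ := ih (init2 hc)
    exact ind_step2 h1 h3 h4 hℓ hq hζ hc hP hR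

theorem stInd2 (h1 : StKum) (h3 : StRes) (h4 : StPres) (h5 : StPres0) : StInd2 := by
  intro ℓ q s k _ ζ g l hℓ hq hζ hc R L _ _ _ _ _ _ x u hP c A w hc0 hA hw
  obtain ⟨R₁, i1, i2, i3, x₁, u₁, hP₁, hI₁⟩ := ind_tower2 h1 h3 h4 h5 hℓ hq hζ l hc
  have hI : IndR ℓ g x := IndR.transfer hP₁ hP hI₁
  obtain ⟨e, he⟩ := pres_equiv hP₁ hP
  haveI : IsIntegrallyClosed R := IsIntegrallyClosed.of_equiv e
  have hq2 : 2 ≤ q := by rw [hq]; exact Nat.one_lt_pow (by omega) hℓ.one_lt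
  have hζ' : IsPrimitiveRoot (ζ ^ (ℓ ^ s)) ℓ := hζ.pow (by omega) (by rw [hq, pow_succ])
  have hinj := IsFractionRing.injective R L
  obtain ⟨H, hgx⟩ : ∃ H : R, aeval x g = -H ^ q := by
    have h5 := (hP.ker (FF ℓ q g l)).2 dvd_rfl
    unfold FF at h5
    rw [eval₂_add, eval₂_C, eval₂_pow] at h5
    exact ⟨_, eq_neg_of_add_eq_zero_left h5⟩
  have hg0 : aeval x g ≠ 0 := by
    intro h7
    have h8 : eval₂ ((aeval x : k[X] →ₐ[k] R) : k[X] →+* R) u (C g) = 0 := by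
      rw [eval₂_C]; exact h7
    have h9 := natDegree_le_of_dvd ((hP.ker _).1 h8) (C_ne_zero.2 hc.sep.ne_zero)
    have hFF := FF_natDegree (q := q) hℓ.pos hq2 g l hc.ne
    rw [natDegree_C] at h9
    omega
  have hH0 : H ≠ 0 := fun h7 => by
    rw [h7, zero_pow (by omega), neg_zero] at hgx
    exact hg0 hgx
  have hHL : algebraMap R L H ≠ 0 := fun h => hH0 (hinj (by rw [h, map_zero]))
  have key : ∀ t : ℕ, t ≤ s + 1 → ∀ (c : k) (A : k[X]) (w : L), c ≠ 0 → VV g A →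
      algebraMap R L (algebraMap k R c * aeval x A) = w ^ (ℓ ^ t) →
      ∃ (j : ℕ) (B : k[X]), C c * A = (-g) ^ j * B ^ (ℓ ^ t) := by
    intro t
    induction t with
    | zero =>
      intro _ c A w _ _ _
      exact ⟨0, C c * A, by rw [pow_zero, pow_zero, pow_one, one_mul]⟩
    | succ t ih =>
      intro ht c A w hc0 hA hw
      obtain ⟨w', rfl⟩ : ∃ w' : R, algebraMap R L w' = w :=
        IsIntegrallyClosed.exists_algebraMap_eq_of_isIntegral_pow (n := ℓ ^ (t + 1))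
          (pow_pos hℓ.pos _) (by rw [← hw]; exact isIntegral_algebraMap)
      have hw1 : algebraMap k R c * aeval x A = (w' ^ (ℓ ^ t)) ^ ℓ := by
        apply hinj
        rw [hw, ← map_pow, ← pow_mul, pow_succ]
      obtain ⟨j, B, hB⟩ := hI c A (w' ^ (ℓ ^ t)) hc0 hA hw1
      have hVB : VV g B := by
        obtain ⟨N, hN⟩ := hA
        refine ⟨N, ?_⟩
        have h2 : B ∣ C c * A := by
          rw [hB]
          exact (dvd_pow_self B hℓ.ne_zero).mul_left _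
        have hu : IsUnit (C c : k[X]) := isUnit_C.2 (IsUnit.mk0 _ hc0)
        exact ((hu.dvd_mul_left).1 h2).trans hN
      have e1 : (aeval x B * H ^ (ℓ ^ s * j)) ^ ℓ = (w' ^ (ℓ ^ t)) ^ ℓ := by
        rw [← hw1]
        have h2 := congrArg (aeval x) hB
        rw [map_mul, map_mul, aeval_C, map_pow, map_pow, map_neg, hgx, neg_neg] at h2
        rw [h2, mul_pow, ← pow_mul, ← pow_mul]
        have e4 : ℓ ^ s * j * ℓ = q * j := by rw [hq, pow_succ]; ring
        rw [e4]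
        ring
      obtain ⟨η, hη, e2⟩ := root_rel (k := k) hℓ.pos hζ' e1
      have hη0 : η ≠ 0 := fun h => by
        rw [h, zero_pow hℓ.ne_zero] at hη
        exact zero_ne_one hη
      obtain ⟨j', B', hB'⟩ := ih (by omega) η⁻¹ B
        (algebraMap R L w' / algebraMap R L H ^ (ℓ ^ (s - t) * j)) (inv_ne_zero hη0) hVB (by
          have e5 : (ℓ ^ (s - t) * j) * ℓ ^ t = ℓ ^ s * j := by
            have : ℓ ^ s = ℓ ^ (s - t) * ℓ ^ t := by rw [← pow_add]; congr 1; omega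
            rw [this]; ring
          rw [div_pow, ← pow_mul, e5, eq_div_iff (pow_ne_zero _ hHL), ← map_pow, ← map_pow,
            ← map_mul]
          congr 1
          rw [mul_assoc, e2, ← mul_assoc, ← map_mul, inv_mul_cancel₀ hη0, map_one, one_mul])
      refine ⟨j + j' * ℓ, B', ?_⟩
      have hBB : B = C η * ((-g) ^ j' * B' ^ (ℓ ^ t)) := by
        rw [← hB', ← mul_assoc, ← C_mul, mul_inv_cancel₀ hη0, C_1, one_mul]
      have hη1 : (C η : k[X]) ^ ℓ = 1 := by rw [← C_pow, hη, C_1]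
      rw [hB, hBB, mul_pow, hη1, one_mul, mul_pow, ← pow_mul, ← pow_mul, pow_add, pow_succ]
      ring
  obtain ⟨j, B, hB⟩ := key (s + 1) le_rfl c A w hc0 hA (by rw [← hq]; exact hw)
  refine ⟨c⁻¹ * (-1) ^ j, j, B, mul_ne_zero (inv_ne_zero hc0) (pow_ne_zero _ (by norm_num)), ?_⟩
  have h6 : A = C c⁻¹ * (C c * A) := by
    rw [← mul_assoc, ← C_mul, inv_mul_cancel₀ hc0, C_1, one_mul]
  rw [h6, hB, ← hq, C_mul, C_pow, C_neg, C_1, neg_pow g]
  ring

end

end Pool.Agent.Y160.FT2I
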