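import Pool.Agent.Y160.RK.FamGen
import Pool.Agent.Y160.SQ.All
import Pool.Agent.Y160.FT2.Fam
import Pool.Agent.Y160.FT2.Ind
import Pool.Agent.Y494.FT.Kum
import Pool.Agent.Y317.FT.TS
import Pool.Agent.Y46.FT.Pres
import Pool.Agent.Y46.FT.Ex2
import Pool.Agent.Y46.FT2.Inj
import Pool.Agent.Y228.FT.Irr
import Pool.Agent.Y228.FT.TwE
import Pool.Agent.Y228.FT.InB
import Pool.Agent.Y721.FT.Fam
import Pool.Agent.Y627.FT.Lin
import Pool.Agent.Y888.FT.Ex1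
import Pool.Agent.Y125.FT2.Tower
import Pool.Agent.Y275.FT2.NrmV
import Pool.Agent.Y897.FT2.NrmR
import Pool.Agent.Y333.FT2.Row
import Pool.Agent.Y823.FT2.Cnt
import Pool.Agent.Y232.FT2.ExF
import Pool.Agent.Y691.FT2.Split
import Pool.Agent.Y141.SH.Loc

/-!
# The families: all the properties
-/

set_option autoImplicit false
set_option linter.all false

open Polynomial IsDedekindDomain WithZero
open scoped nonZeroDivisors Classical

namespace Pool.Agent.Y160.FT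

open Pool.Agent.TH115.GD (IsTower)
open Pool.Agent.Y160.SE (IsPw SmoothC)
open Pool.Agent.Y160.RK (IndP StInj)

theorem inj_all : StInj := Pool.Agent.Y46.FT2.stInj Pool.Agent.Y160.SQ.hyps.ring
  Pool.Agent.Y160.SQ.hyps.norm

theorem ind1 : StInd := Pool.Agent.Y228.FT.stInd Pool.Agent.Y494.FT.stKum
  Pool.Agent.Y46.FT.stRes Pool.Agent.Y46.FT.stPres Pool.Agent.Y46.FT.stPres0

theorem ind2 : StInd2 := Pool.Agent.Y160.FT2I.stInd2 Pool.Agent.Y494.FT.stKum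
  Pool.Agent.Y46.FT.stRes Pool.Agent.Y46.FT.stPres Pool.Agent.Y46.FT.stPres0

theorem tower1 : StTower := Pool.Agent.Y228.FT.stTower Pool.Agent.Y494.FT.stKum
  Pool.Agent.Y317.FT.stTS Pool.Agent.Y46.FT.stRes Pool.Agent.Y46.FT.stPres
  Pool.Agent.Y46.FT.stPres0

theorem row_all : StRow := Pool.Agent.Y333.FT2.stRow Pool.Agent.Y275.FT2.stNrmV
  Pool.Agent.Y897.FT2.stNrmR

theorem tower2 : StTower2 := Pool.Agent.Y125.FT2.stTower2 Pool.Agent.Y494.FT.stKum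
  Pool.Agent.Y317.FT.stTS Pool.Agent.Y46.FT.stRes Pool.Agent.Y46.FT.stPres
  Pool.Agent.Y46.FT.stPres0 row_all

theorem fam1 : StFam := Pool.Agent.Y721.FT.stFam Pool.Agent.Y228.FT.stIrr

theorem fam2 : StFam2 := Pool.Agent.Y160.FT2F.stFam2 Pool.Agent.Y228.FT.stIrr

section asm

variable {p q s : ℕ} {k : Type} [Field k] {ζ : k} {g : k[X]} {l : List (k[X] × k)}

theorem p_ne (hp : p.Prime) (hq : q = p ^ (s + 1)) (hζ : IsPrimitiveRoot ζ q) : (p : k) ≠ 0 := by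
  haveI : NeZero q := ⟨by rw [hq]; exact pow_ne_zero _ hp.ne_zero⟩
  have h1 : ((q : ℕ) : k) ≠ 0 := hζ.neZero'.out
  intro h0
  apply h1
  rw [hq, Nat.cast_pow, h0, zero_pow (Nat.succ_ne_zero s)]

theorem asm1 (hp : p.Prime) (hq : q = p ^ (s + 1)) (hζ : IsPrimitiveRoot ζ q)
    (hC : Cond p q g l) : FamP p q g l ∧ TowP p q g l ∧ IndP p q g l := by
  obtain ⟨h1, h2, h3, h4, h5⟩ := fam1 p q s k g l hp hq (p_ne hp hq hζ) hC
  exact ⟨⟨h1, h2, h3, h4, h5⟩, tower1 p q s k ζ g l hp hq hζ hC, ind1 p q s k ζ g l hp hq hζ hC⟩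

theorem asm2 (hp : p.Prime) (hq : q = p ^ (s + 1)) (hζ : IsPrimitiveRoot ζ q)
    (hC : Cond2 p q g l) : FamP p q g l ∧ TowP p q g l ∧ IndP p q g l := by
  obtain ⟨h1, h2, h3, h4, h5⟩ := fam2 p q s k g l hp hq (p_ne hp hq hζ) hC
  exact ⟨⟨h1, h2, h3, h4, h5⟩, tower2 p q s k ζ g l hp hq hζ hC, ind2 p q s k ζ g l hp hq hζ hC⟩

end asm

section tate

variable {k k' K F : Type} [Field k] [Field k'] [Algebra k k'] [Field K] [Algebra k[X] K]
  [Field F] [Algebra k'[X] F] [IsFractionRing k'[X] F] [Algebra K F] [IsFractionRing k[X] K]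

/-- All the conclusions. -/
theorem conclA (hT : IsTower k k' K F) {p q s : ℕ} (hp : p.Prime)
    (hq : q = p ^ (s + 1)) {ζ : k} (hζ : IsPrimitiveRoot ζ q) {g : k[X]} {l : List (k[X] × k)}
    (hC : Base p g l) (hA : FamP p q g l ∧ TowP p q g l ∧ IndP p q g l) {r : ℕ}
    (G : Fin (r + 1) → k[X]) (hG : ∀ j, Irreducible (G j) ∧ (G j).Monic)
    (hGi : Function.Injective G) (hgG : g = ∏ j, G j) :
    SQ.TateAt (F := F) p q k' ((ff p q g l).map (algebraMap k[X] K)) ∧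
    SH.ShaTriv p q k[X] ((ff p q g l).map (algebraMap k[X] K)) ∧
    ∃ D : Fin r × Fin (q - 1) → SQ.Jac q ((ff p q g l).map (algebraMap k[X] K)) K,
      LinearIndependent ℤ D ∧ ∀ (n : ℕ) (x : SQ.Jac q ((ff p q g l).map (algebraMap k[X] K)) K),
        ∃ y, x - p ^ n • y ∈ AddSubgroup.closure (Set.range D) :=
  ⟨famTate2 SQ.hyps SQ.lhyps hT hp hq hζ hC hA.1 hA.2.1,
    RK.famSha SQ.hyps SQ.lhyps Pool.Agent.Y141.SH.stShaLoc hT hp hq hζ hC hA.1 hA.2.1,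
    RK.famBasis SQ.hyps SQ.lhyps inj_all Pool.Agent.Y627.FT.stLin
      Pool.Agent.Y141.SH.stShaLoc hT hp hq hζ hC hA.1 hA.2.1 hA.2.2 G hG hGi hgG⟩

end tate

end Pool.Agent.Y160.FT
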