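import Pool.Agent.Y160.FT.Main
import Pool.Agent.Y160.FT2.Stmts

/-!
# The functions on the branch curve `g(x) + h(x, t) ^ q = 0`
-/

set_option autoImplicit false
set_option linter.all false

open Polynomial IsDedekindDomain WithZero
open scoped Classical

namespace Pool.Agent.Y160.FT

open Pool.Agent.Y160.SE (IsPw SmoothC)
open Pool.Agent.TH115.GD (IsTower)
open Pool.Agent.Y160.SQ (TateAt)

/-- The properties of `g` and of the list which are used at the end. -/
structure Base {k : Type} [Field k] (p : ℕ) (g : k[X]) (l : List (k[X] × k)) : Prop where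
  monic : g.Monic
  sep : g.Separable
  cop : p.Coprime g.natDegree
  ne : ∀ l₁ b a l₂, l = l₁ ++ (b, a) :: l₂ → a ≠ 0

theorem Cond.base {k : Type} [Field k] {p q : ℕ} {g : k[X]} {l : List (k[X] × k)}
    (h : Cond p q g l) : Base p g l := ⟨h.monic, h.sep, h.cop, h.ne⟩

theorem Cond2.base {k : Type} [Field k] {p q : ℕ} {g : k[X]} {l : List (k[X] × k)}
    (h : Cond2 p q g l) : Base p g l := ⟨h.monic, h.sep, h.cop, h.ne⟩

/-- The elementary properties of `f = g(x) + h(x, t) ^ q`. -/
structure FamP {k : Type} [Field k] (p q : ℕ) (g : k[X]) (l : List (k[X] × k)) : Prop where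
  monic : (ff p q g l).Monic
  deg : (ff p q g l).natDegree = g.natDegree
  smooth : SmoothC (ff p q g l)
  irrK : ∀ (F : Type) [Field F] [Algebra k[X] F] [IsFractionRing k[X] F],
    Irreducible ((ff p q g l).map (algebraMap k[X] F)) ∧
    ((ff p q g l).map (algebraMap k[X] F)).Separable
  irrF : ∀ (k' F : Type) [Field k'] [Algebra k k'] [Field F] [Algebra k'[X] F]
    [IsFractionRing k'[X] F],
    Irreducible (((ff p q g l).map (mapRingHom (algebraMap k k'))).map (algebraMap k'[X] F))

/-- The ring of the curve and the functions whose valuations are `p`-th powers. -/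
def TowP {k : Type} [Field k] (p q : ℕ) (g : k[X]) (l : List (k[X] × k)) : Prop :=
  ∃ (R : Type) (_ : CommRing R) (_ : IsDedekindDomain R) (_ : Algebra k R) (x u : R),
    Pres x u (FF p q g l) ∧
    ∀ (L : Type) [Field L] [Algebra R L] [IsFractionRing R L] [Algebra k L],
      (∀ c : k, algebraMap k L c = algebraMap R L (algebraMap k R c)) →
      ∀ z : L, z ≠ 0 → (∀ P : HeightOneSpectrum R, IsPw p (P.valuation L z)) →
        ∃ (c : k) (A : k[X]) (w : L), c ≠ 0 ∧ VV g A ∧ w ≠ 0 ∧
          z = algebraMap k L c * algebraMap R L (aeval x A) * w ^ p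

section fam

variable {k K : Type} [Field k] [Field K] [Algebra k[X] K] [IsFractionRing k[X] K]

/-- The function field of the curve, and the functions whose divisor is divisible by `q`. -/
theorem famCont {Goal : Prop} {p q s : ℕ} (hp : p.Prime) (hq : q = p ^ (s + 1)) {ζ : k}
    (hζ : IsPrimitiveRoot ζ q) {g : k[X]} {l : List (k[X] × k)} (hC : Base p g l)
    (hFam : FamP p q g l) (hTower : TowP p q g l)
    (cont : ∀ (R N : Type) [CommRing R] [IsDedekindDomain R] [Field N] [Algebra K N]
      [Algebra k[X] N] [IsScalarTower k[X] K N] [Algebra R N] [IsFractionRing R N]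
      [Algebra k[X] R] [IsScalarTower k[X] R N] [Algebra.IsIntegral k[X] R] (θ : N),
      aeval θ ((ff p q g l).map (algebraMap k[X] K)) = 0 →
      IntermediateField.adjoin K {θ} = ⊤ →
      (∀ z : N, z ≠ 0 → (∀ v : HeightOneSpectrum R, IsPw q (v.valuation N z)) →
        ∃ (u : k) (g0 : N) (S : Multiset K[X]), u ≠ 0 ∧ g0 ≠ 0 ∧
          (∀ b ∈ S, b.Monic ∧
            ∃ c : K[X], b ∣ (ff p q g l).map (algebraMap k[X] K) - c ^ q) ∧
          z = algebraMap k[X] N (C u) * g0 ^ q * aeval θ S.prod) → Goal) : Goal := by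
  have hq0 : q ≠ 0 := by rw [hq]; exact pow_ne_zero _ hp.ne_zero
  haveI : NeZero q := ⟨hq0⟩
  obtain ⟨hmon, hdeg, hsm, hK, hF⟩ := hFam
  obtain ⟨hirrK, hsepK⟩ := hK K
  obtain ⟨R, _, _, _, x, u, hP, hsel⟩ := hTower
  obtain ⟨hsurj, hker⟩ := pres_swap hP
  have hn : (ff p q g l).natDegree ≠ 0 := by
    rw [hdeg]
    intro h0
    have := hC.cop
    rw [h0, Nat.coprime_zero_right] at this
    exact hp.one_lt.ne' this
  -- the algebra structures
  let φ : k[X] →+* R := ((aeval u : k[X] →ₐ[k] R) : k[X] →+* R)
  letI : Algebra k[X] R := φ.toAlgebra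
  haveI : IsDomain R := inferInstance
  have hinjR : Function.Injective (algebraMap k[X] R) := by
    rw [injective_iff_map_eq_zero]
    intro y hy
    have h1 : eval₂ φ x (C y) = 0 := by rw [eval₂_C]; exact hy
    have h2 := (hker _).1 h1
    by_contra hy0
    have h3 := natDegree_le_of_dvd h2 (C_ne_zero.2 hy0)
    rw [natDegree_C] at h3
    exact hn (Nat.le_zero.1 h3)
  have hkX : ∀ y : k[X], algebraMap k[X] (FractionRing R) y = algebraMap R (FractionRing R) (φ y) :=
    fun y => IsScalarTower.algebraMap_apply k[X] R (FractionRing R) y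
  have hinjN : Function.Injective (algebraMap k[X] (FractionRing R)) := by
    intro y y' h
    rw [hkX, hkX] at h
    exact hinjR (IsFractionRing.injective R (FractionRing R) h)
  have hkN : ∀ c : k, algebraMap k (FractionRing R) c =
      algebraMap R (FractionRing R) (algebraMap k R c) := fun c =>
    IsScalarTower.algebraMap_apply k R (FractionRing R) c
  letI : Algebra K (FractionRing R) := (IsFractionRing.lift hinjN : K →+* FractionRing R).toAlgebra
  haveI : IsScalarTower k[X] K (FractionRing R) := IsScalarTower.of_algebraMap_eq fun y =>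
    (IsFractionRing.lift_algebraMap hinjN y).symm
  have hroot : eval₂ φ x (ff p q g l) = 0 := (hker _).2 dvd_rfl
  haveI : Algebra.IsIntegral k[X] R := by
    refine ⟨fun z => ?_⟩
    obtain ⟨P, rfl⟩ := hsurj z
    have hx : IsIntegral k[X] x := ⟨ff p q g l, hmon, hroot⟩
    have : eval₂ φ x P = aeval x P := rfl
    rw [this]
    exact adjoin_le_integralClosure hx (aeval_mem_adjoin_singleton k[X] x)
  let θ : FractionRing R := algebraMap R (FractionRing R) x
  have hθev : ∀ P : k[X][X], aeval θ (P.map (algebraMap k[X] K)) =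
      algebraMap R (FractionRing R) (eval₂ φ x P) := by
    intro P
    rw [aeval_map_algebraMap]
    have h1 : algebraMap k[X] (FractionRing R) = (algebraMap R (FractionRing R)).comp φ :=
      RingHom.ext hkX
    rw [aeval_def, h1]
    exact (hom_eval₂ P φ (algebraMap R (FractionRing R)) x).symm
  have hθ : aeval θ ((ff p q g l).map (algebraMap k[X] K)) = 0 := by
    rw [hθev, hroot, map_zero]
  have htop : IntermediateField.adjoin K {θ} = ⊤ := by
    rw [eq_top_iff]
    rintro z -
    have hR : ∀ r : R, algebraMap R (FractionRing R) r ∈ IntermediateField.adjoin K {θ} := by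
      intro r
      obtain ⟨P, rfl⟩ := hsurj r
      rw [← hθev]
      exact IntermediateField.algebra_adjoin_le_adjoin K {θ}
        (aeval_mem_adjoin_singleton K θ)
    obtain ⟨a, b, hb, rfl⟩ := IsFractionRing.div_surjective (A := R) z
    exact div_mem (hR a) (hR b)
  -- the function `H`
  obtain ⟨H0, hH0⟩ := g_eq hP
  have hgx : aeval x g ≠ 0 := by
    intro h0
    have h1 : eval₂ φ x (g.map C) = 0 := by
      rw [eval₂_map]
      have : φ.comp C = algebraMap k R := by
        apply RingHom.ext
        intro c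
        show aeval u (C c) = _
        rw [aeval_C]
      rw [this]
      exact h0
    have h2 := (hker _).1 h1
    have h3 : (g.map C : k[X][X]).natDegree = (ff p q g l).natDegree := by
      rw [hdeg, hC.monic.natDegree_map]
    have h4 := eq_of_monic_of_dvd_of_natDegree_le hmon (hC.monic.map C) h2 h3.le
    have h5 : (EE p (mapRingHom C) l (C X) : k[X][X]) ^ q = 0 := by
      have h6 : g.map C + (EE p (mapRingHom C) l (C X) : k[X][X]) ^ q = g.map C := h4.symm
      exact add_eq_left.1 h6
    have h7 := pow_eq_zero_iff hq0 |>.1 h5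
    refine EE_ne hp.ne_zero l ?_ h7
    intro y hy
    obtain ⟨l1, l2, hl⟩ := List.append_of_mem hy
    exact hC.ne l1 y.1 y.2 l2 hl
  have hgsq : Squarefree g := hC.sep.squarefree
  refine cont R (FractionRing R) θ hθ htop ?_
  intro z hz hv
  obtain ⟨c, A, w, hc, ⟨M, hA⟩, hw, e⟩ := sel_q (L := FractionRing R) hkN hp.ne_zero hq hgsq hH0 hgx
    (hsel (FractionRing R) hkN) (s + 1) le_rfl z hz (by rw [← hq]; exact hv)
  rw [← hq] at e
  have hA0 : A ≠ 0 := by
    rintro rfl
    apply hz
    rw [e, map_zero, map_zero, mul_zero, zero_mul]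
  -- the factors of `A`
  let T : Multiset k[X] := UniqueFactorizationMonoid.normalizedFactors A
  have hTA : ∃ c1 : k, c1 ≠ 0 ∧ A = C c1 * T.prod := by
    obtain ⟨v, hv⟩ := UniqueFactorizationMonoid.prod_normalizedFactors hA0
    obtain ⟨c1, hc1, h1⟩ := Polynomial.isUnit_iff.1 v.isUnit
    exact ⟨c1, hc1.ne_zero, by rw [← hv, h1, mul_comm]⟩
  obtain ⟨c1, hc1, hAT⟩ := hTA
  let ψ : k[X] →+* K[X] := mapRingHom ((algebraMap k[X] K).comp C)
  refine ⟨c * c1, w, T.map ψ, mul_ne_zero hc hc1, hw, ?_, ?_⟩
  · intro b hb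
    obtain ⟨r, hr, rfl⟩ := Multiset.mem_map.1 hb
    have h1 := UniqueFactorizationMonoid.irreducible_of_normalized_factor r hr
    have h2 := UniqueFactorizationMonoid.dvd_of_mem_normalizedFactors hr
    have h3 := UniqueFactorizationMonoid.normalize_normalized_factor r hr
    have hrm : r.Monic := by
      have h4 := Polynomial.monic_normalize h1.ne_zero
      rwa [h3] at h4
    refine ⟨hrm.map _, (EE p (mapRingHom C) l (C X) : k[X][X]).map (algebraMap k[X] K), ?_⟩
    have h5 : (ff p q g l).map (algebraMap k[X] K) -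
        ((EE p (mapRingHom C) l (C X) : k[X][X]).map (algebraMap k[X] K)) ^ q = ψ g := by
      unfold ff
      rw [Polynomial.map_add, Polynomial.map_pow, add_sub_cancel_right, Polynomial.map_map]
      rfl
    rw [h5]
    exact map_dvd ψ (h1.prime.dvd_of_dvd_pow (h2.trans hA))
  · have h1 : (T.map ψ).prod = ψ T.prod := (map_multiset_prod ψ T).symm
    have h2 : ∀ y : k[X], aeval θ (ψ y) = algebraMap R (FractionRing R) (aeval x y) := by
      intro y
      have h3 : ψ y = (y.map C).map (algebraMap k[X] K) := by
        rw [Polynomial.map_map]; rfl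
      rw [h3, hθev, eval₂_map]
      congr 1
      have : φ.comp C = algebraMap k R := by
        apply RingHom.ext
        intro c
        show aeval u (C c) = _
        rw [aeval_C]
      rw [this]
      rfl
    have h3 : algebraMap k[X] (FractionRing R) (C (c * c1)) =
        algebraMap k (FractionRing R) (c * c1) := by
      rw [hkX, hkN]
      congr 1
      show aeval u (C (c * c1)) = _
      rw [aeval_C]
    rw [h1, h2, h3, e, hAT, map_mul (aeval x), aeval_C, map_mul (algebraMap R (FractionRing R)),
      map_mul (algebraMap k (FractionRing R)), hkN c1]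
    ring

end fam

section tate

variable {k k' K F : Type} [Field k] [Field k'] [Algebra k k'] [Field K] [Algebra k[X] K]
  [Field F] [Algebra k'[X] F] [IsFractionRing k'[X] F] [Algebra K F]

/-- The Tate conjecture at `p` for `w ^ q = g(x) + h(x, t) ^ q`. -/
theorem famTate2 (H : SQ.Hyps) (HL : SQ.LHyps) (hT : IsTower k k' K F) {p q s : ℕ} (hp : p.Prime)
    (hq : q = p ^ (s + 1)) {ζ : k} (hζ : IsPrimitiveRoot ζ q) {g : k[X]} {l : List (k[X] × k)}
    (hC : Base p g l) (hFam : FamP p q g l) (hTower : TowP p q g l) :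
    TateAt (F := F) p q k' ((ff p q g l).map (algebraMap k[X] K)) := by
  haveI := hT.fracK
  refine famCont (K := K) hp hq hζ hC hFam hTower ?_
  intro R N _ _ _ _ _ _ _ _ _ _ _ θ hθ htop hpts
  have hirrF : Irreducible (((ff p q g l).map (algebraMap k[X] K)).map (algebraMap K F)) := by
    have h1 := hFam.irrF k' F
    have e : ((ff p q g l).map (algebraMap k[X] K)).map (algebraMap K F) =
        ((ff p q g l).map (mapRingHom (algebraMap k k'))).map (algebraMap k'[X] F) := by
      rw [Polynomial.map_map, Polynomial.map_map]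
      congr 1
      apply RingHom.ext
      intro y
      exact hT.map y
    rw [e]
    exact h1
  refine SQ.mainC (R := R) (N := N) hp (Nat.succ_pos s) hq H HL hT hζ hFam.monic ?_
    (hFam.irrK K).2 hFam.smooth hirrF hθ htop hpts
  rw [hFam.deg]; exact hC.cop

end tate

end Pool.Agent.Y160.FT
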